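import Pool.Agent.Helper85.CR.Goals

/-!
# Project CR (MP_bdaf95_co), packet PISO: planarity and isomorphic copies
-/

set_option autoImplicit false

namespace Pool.Agent.Helper24.CR

open Equiv Pool.Agent.Helper85.CR

variable {V W : Type}

/-- The darts of a graph and of its copy. -/
def dartE (e : V ≃ W) (K : SimpleGraph W) : (K.comap e).Dart ≃ K.Dart where
  toFun d := ⟨(e d.fst, e d.snd), d.adj⟩
  invFun d := ⟨(e.symm d.fst, e.symm d.snd), by
    simp only [SimpleGraph.comap_adj, Equiv.apply_symm_apply]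
    exact d.adj⟩
  left_inv d := by
    ext <;> simp
  right_inv d := by
    ext <;> simp

/-- The transported permutation. -/
def tr (e : V ≃ W) (K : SimpleGraph W) (σ : Equiv.Perm K.Dart) : Equiv.Perm (K.comap e).Dart :=
  (dartE e K).symm.permCongr σ

theorem tr_apply (e : V ≃ W) (K : SimpleGraph W) (σ : Equiv.Perm K.Dart) (d : (K.comap e).Dart) :
    dartE e K (tr e K σ d) = σ (dartE e K d) := by
  simp [tr, Equiv.permCongr_apply]

theorem sameCycle_tr (e : V ≃ W) (K : SimpleGraph W) (σ : Equiv.Perm K.Dart)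
    (x y : (K.comap e).Dart) :
    (tr e K σ).SameCycle x y ↔ σ.SameCycle (dartE e K x) (dartE e K y) := by
  have h : ∀ i : ℤ, dartE e K ((tr e K σ ^ i) x) = (σ ^ i) (dartE e K x) := by
    intro i
    have h1 : tr e K σ ^ i = tr e K (σ ^ i) := by
      unfold tr
      exact (map_zpow (Equiv.permCongrHom (dartE e K).symm) σ i).symm
    rw [h1, tr_apply]
  constructor
  · rintro ⟨i, hi⟩
    exact ⟨i, by rw [← h, hi]⟩
  · rintro ⟨i, hi⟩
    exact ⟨i, (dartE e K).injective (by rw [h, hi])⟩

theorem tr_rev (e : V ≃ W) (K : SimpleGraph W) : tr e K (rev K) = rev (K.comap e) := by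
  ext d : 1
  apply (dartE e K).injective
  rw [tr_apply]
  rfl

theorem tr_mul (e : V ≃ W) (K : SimpleGraph W) (σ τ : Equiv.Perm K.Dart) :
    tr e K (σ * τ) = tr e K σ * tr e K τ := by
  ext d : 1
  apply (dartE e K).injective
  rw [tr_apply, Equiv.Perm.mul_apply, Equiv.Perm.mul_apply, tr_apply, tr_apply]

theorem numFaces_tr (e : V ≃ W) (K : SimpleGraph W) (σ : Equiv.Perm K.Dart) :
    numFaces (K.comap e) (tr e K σ) = numFaces K σ := by
  unfold numFaces
  rw [← tr_rev, ← tr_mul]
  refine Nat.card_congr (Quotient.congr (dartE e K) ?_)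
  intro x y
  exact sameCycle_tr e K _ x y

/-- **PISO** -/
theorem gPISO : StmtPISO := by
  intro V W e G H hGH hH
  rcases hH with h | ⟨K, hHK, hK, σ, hσ, hn⟩
  · exact Or.inl (by rwa [Nat.card_congr e])
  · right
    have iso : K.comap e ≃g K := SimpleGraph.Iso.comap e K
    refine ⟨K.comap e, fun u v huv => hHK (hGH u v huv), iso.connected_iff.2 hK, tr e K σ, ?_, ?_⟩
    · intro d d'
      rw [sameCycle_tr, hσ]
      exact e.injective.eq_iff
    · rw [numFaces_tr, Nat.card_congr e, hn, Nat.card_congr iso.mapEdgeSet]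

end Pool.Agent.Helper24.CR
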